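import Pool.Agent.V1157.GA.Defs

/-!
# Group algebras and the monodromy-weight conjecture: definitions
-/

open CategoryTheory AlgebraicGeometry

universe u v w x y

namespace Pool.Agent.V1157.GM

open Pool.Agent.H914 Pool.Agent.H914.VarClass Pool.Agent.H914.VarClass.Obj Pool.Agent.W492.BB
  Pool.Agent.V1157.GA

variable {k : Type u} [Field k] {𝒱 : VarClass k} {C : TheoryData.{u, v, 0} 𝒱 ℚ} {K : Type w}
  [Field K]

/-- Monodromy operators and weights on the cohomology of the varieties over the algebraic closure
`k` of a local field. -/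
structure MonoData (H : WeilTheoryData.{u, v, w} C K) where
  /-- the monodromy operator on the cohomology of `X` -/
  N : ∀ X : 𝒱.Obj, H.A X → H.A X
  /-- `W X m w` is the part of weight `w` of `H^m(X)`: the sum of the generalized eigenspaces of
  Frobenius for the eigenvalues of weight `w` -/
  W : ∀ X : 𝒱.Obj, ℕ → ℤ → Submodule K (H.A X)

variable {H : WeilTheoryData.{u, v, w} C K} (D : MonoData H)

/-- Pull-backs are compatible with the weights and with the monodromy operators. -/
structure IsNatural : Prop where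
  pull : ∀ (X Y : 𝒱.Obj) (f : X ⟶ Y) (m : ℕ) (w : ℤ), ∀ t ∈ D.W Y m w, H.up f t ∈ D.W X m w
  N_pull : ∀ (X Y : 𝒱.Obj) (f : X ⟶ Y) (m : ℕ) (w : ℤ), ∀ t ∈ D.W Y m w,
    D.N X (H.up f t) = H.up f (D.N Y t)

/-- The weight parts of `H^m(X)` are contained in it, the monodromy operator lowers the weight by
`2`, and the weight of `H^{2 dim X}(X)` is `2 dim X`. -/
structure HasWeights : Prop where
  le : ∀ (X : 𝒱.Obj) (m : ℕ) (w : ℤ), D.W X m w ≤ H.gr X m
  N_mem : ∀ (X : 𝒱.Obj) (m : ℕ) (w : ℤ), ∀ t ∈ D.W X m w, D.N X t ∈ D.W X m (w - 2)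
  top : ∀ (X : 𝒱.Obj) (w : ℤ), w ≠ 2 * X.dim → D.W X (2 * X.dim) w = ⊥

/-- The product with the class of a cycle of codimension `i` raises the weight by `2 i`. -/
def HasProducts : Prop :=
  ∀ (X : 𝒱.Obj) (m i : ℕ) (w : ℤ) (z : C.A X), C.Deg i z → ∀ t ∈ D.W X m w,
    H.mul (H.cl z) t ∈ D.W X (m + 2 * i) (w + 2 * i)

/-- The known properties of the monodromy operators and of the weights. -/
structure IsMono : Prop where
  isNatural : IsNatural D
  hasWeights : HasWeights D
  hasProducts : HasProducts D

/-- The class `t` is in the kernel of the `j`-th power of the monodromy operator on the part of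
weight `m + j` of `H^m(X)`. -/
def InKernel (X : 𝒱.Obj) (m j : ℕ) (t : H.A X) : Prop :=
  t ∈ D.W X m (m + j) ∧ (D.N X)^[j] t = 0

variable {G : Type x} [Group G] (R : Forms.{u, v, w, x, y} G H.toTheoryData) (n m j : ℕ)

/-- The `j`-th power of the monodromy operator is injective on the part of weight `m + j` of
`H^m(X)`, for all varieties `X` over `F` of dimension `n`. -/
def MonodromyInjective : Prop :=
  ∀ (X : R.Form) (t : H.A (R.obj X)), (R.obj X).dim = n → InKernel D (R.obj X) m j t → t = 0

/-- For all varieties `X` over `F` of dimension `n`, the element `f` of the group algebra has rank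
at most `b` on the kernel of the `j`-th power of the monodromy operator on the part of weight `m + j`
of `H^m(X)`. -/
def KernelRankAtMost (f : G →₀ K) (b : ℕ) : Prop :=
  ∀ (X : R.Form) (t : Fin (b + 1) → H.A (R.obj X)), (R.obj X).dim = n →
    (∀ i, InKernel D (R.obj X) m j (t i)) →
      ∃ c : Fin (b + 1) → K, c ≠ 0 ∧ ∑ i, c i • app R f X m (t i) = 0

end Pool.Agent.V1157.GM
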