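import Pool.Agent.V1157.GM.Defs
import Pool.Agent.V1157.GA.Core
import Pool.Agent.V1157.BD.Main

/-!
# Group algebras and the monodromy-weight conjecture
-/

open CategoryTheory AlgebraicGeometry

universe u v w x y

namespace Pool.Agent.V1157.GM

open Pool.Agent.H914 Pool.Agent.H914.VarClass Pool.Agent.H914.VarClass.Obj Pool.Agent.W492.BB
  Pool.Agent.W550.Corr Pool.Agent.TH133 Pool.Agent.Y148.BB Pool.Agent.V1157.GA
open Pool.Agent.V1157.BD (Pw sc act_cl_smul)
open Pool.Agent.V1157.RC (pow_eq_sum pow_mem' cog_gr)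

set_option linter.unusedSectionVars false

variable {k : Type u} [Field k] {𝒱 : VarClass k} {C : TheoryData.{u, v, 0} 𝒱 ℚ}
  [hC : IsChowProj C] {K : Type w} [Field K] {H : WeilTheoryData.{u, v, w} C K}
  [hH : IsWeilProj H] {D : MonoData H} {S V X Y : 𝒱.Obj} {n m j r : ℕ}

lemma iterate_mem (hD : IsMono D) {w : ℤ} {t : H.A X} (ht : t ∈ D.W X m w) (l : ℕ) :
    (D.N X)^[l] t ∈ D.W X m (w - 2 * l) := by
  induction l with
  | zero => simpa using ht
  | succ l ih =>
    rw [Function.iterate_succ_apply']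
    have := hD.hasWeights.N_mem X m _ _ ih
    have e : w - 2 * (l : ℤ) - 2 = w - 2 * ((l + 1 : ℕ) : ℤ) := by push_cast; ring
    rwa [e] at this

lemma iterate_pull (hD : IsMono D) (f : X ⟶ Y) {w : ℤ} {t : H.A Y} (ht : t ∈ D.W Y m w)
    (l : ℕ) : (D.N X)^[l] (H.pull f t) = H.pull f ((D.N Y)^[l] t) := by
  induction l with
  | zero => rfl
  | succ l ih =>
    rw [Function.iterate_succ_apply', Function.iterate_succ_apply', ih]
    exact hD.isNatural.N_pull X Y f m _ _ (iterate_mem hD ht l)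

lemma inKernel_pull (hD : IsMono D) (f : X ⟶ Y) {t : H.A Y} (ht : InKernel D Y m j t) :
    InKernel D X m j (H.pull f t) := by
  refine ⟨hD.isNatural.pull X Y f m _ t ht.1, ?_⟩
  rw [iterate_pull hD f ht.1, ht.2, map_zero]

/-- Decomposable correspondences act as zero on classes of weight different from the degree. -/
lemma act_ext_zero (hD : IsMono D) (hX : X.dim = n) {i : ℕ} {a : C.A X} {b : C.A Y}
    (ha : C.Deg i a) {w : ℤ} (hw : w ≠ m) {t : H.A X} (ht : t ∈ D.W X m w) :
    H.act (H.cl (C.ext a b)) t = 0 := by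
  have h0 : H.cl (C.ext a b) = H.pull (fst X Y) (H.cl a) * H.cl (C.pull (snd X Y) b) := by
    rw [TheoryData.ext, (H.cl (X := X.prod Y)).map_mul, H.cl_pull (fst X Y)]
  have h1 : H.act (H.cl (C.ext a b)) t =
      H.push (snd X Y) (H.pull (fst X Y) (H.cl a * t)) * H.cl b := by
    rw [TheoryData.act_apply, h0, mul_assoc, H.cl_central, ← mul_assoc, H.cl_pull,
      H.proj_right, ← map_mul (H.pull (fst X Y))]
  have h5 : H.cl a * t ∈ D.W X (m + 2 * i) (w + 2 * i) := hD.hasProducts X m i w a ha t ht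
  have h2 : H.cl a * t ∈ H.gr X (m + 2 * i) := by
    have := hD.hasWeights.le X (m + 2 * i) _ h5
    push_cast at this
    exact this
  have h3' := H.push_mem (snd X Y) (H.pull_mem (fst X Y) h2)
  have e3 : (m + 2 * i : ℤ) + 2 * ((Y.dim : ℤ) - ((X.prod Y).dim : ℤ)) = m + 2 * i - 2 * n := by
    rw [dim_prod, hX]; push_cast; ring
  have h3 : H.push (snd X Y) (H.pull (fst X Y) (H.cl a * t)) ∈ H.gr Y (m + 2 * i - 2 * n) := by
    rwa [e3] at h3'
  rw [h1]
  rcases lt_trichotomy (m + 2 * i) (2 * n) with h | h | h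
  · rw [H.gr_neg Y _ (by omega)] at h3
    rw [(Submodule.mem_bot _).1 h3, zero_mul]
  · have h6 : D.W X (m + 2 * i) (w + 2 * i) = ⊥ := by
      rw [h, ← hX]
      exact hD.hasWeights.top X _ (by rw [hX]; omega)
    rw [h6] at h5
    rw [(Submodule.mem_bot _).1 h5, map_zero, map_zero, zero_mul]
  · rw [gr_top H (by rw [hX]; push_cast; omega)] at h2
    rw [(Submodule.mem_bot _).1 h2, map_zero, map_zero, zero_mul]

lemma act_pow_zero (hD : IsMono D) (hX : X.dim = n) {a : C.A X} {b : C.A Y}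
    (ha : a ∈ C.gr X 1) (c : ℚ) {w : ℤ} (hw : w ≠ m) {t : H.A X} (ht : t ∈ D.W X m w) :
    H.act (H.cl (c • (C.pull (fst X Y) a + C.pull (snd X Y) b) ^ n)) t = 0 := by
  rw [act_cl_smul, pow_eq_sum]
  have h1 : H.act (H.cl (∑ j ∈ Finset.range (n + 1), (n.choose j : ℚ) •
      C.ext (a ^ j) (b ^ (n - j)))) t = ∑ j ∈ Finset.range (n + 1),
        H.act (H.cl ((n.choose j : ℚ) • C.ext (a ^ j) (b ^ (n - j)))) t := by
    rw [map_sum, act_sum]
  rw [h1, Finset.sum_eq_zero, mul_zero]
  intro j _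
  rw [act_cl_smul, act_ext_zero hD hX (pow_mem' ha _) hw ht, mul_zero]

lemma push_pull_zero (hD : IsMono D) {N : ℕ} {p : ℕ → (V ⟶ S)} {a : C.A S} {c κ : ℚ}
    (h : Pw C n N p a c κ) {i l : ℕ} (hi : i < N) (hl : l < N) (hil : i ≠ l) {w : ℤ}
    (hw : w ≠ m) {t : H.A S} (ht : t ∈ D.W S m w) : H.push (p l) (H.pull (p i) t) = 0 := by
  have h1 : H.push (p l) (H.pull (p i) t) =
      H.act (H.cl (C.comp (C.cograph (p i)) (C.graph (p l)))) t := by
    rw [actH_comp]
    have e1 : H.cl (C.cograph (p i)) = H.cograph (p i) := by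
      rw [TheoryData.cograph, TheoryData.cograph, H.cl_push, map_one]
    have e2 : H.cl (C.graph (p l)) = H.graph (p l) := by
      rw [TheoryData.graph, TheoryData.graph, H.cl_push, map_one]
    rw [e1, e2, H.act_cograph, H.act_graph]
  rw [h1, cog_gr, h.pq i hi l hl hil]
  exact act_pow_zero hD h.dimS h.ha c hw ht

variable {G : Type x} [Group G] {R : Forms.{u, v, w, x, y} G H.toTheoryData}

omit hC in
lemma cast_smul [CharZero K] {X : 𝒱.Obj} (κ : ℚ) (t : H.A X) : sc H X κ * t = (κ : K) • t := by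
  have h1 : (H.cl (X := X)).comp (algebraMap ℚ (C.A X)) =
      (algebraMap K (H.A X)).comp (algebraMap ℚ K) := RingHom.ext_rat _ _
  have h2 : sc H X κ = algebraMap K (H.A X) (κ : K) := by
    have := RingHom.congr_fun h1 κ
    simpa [sc] using this
  rw [h2, Algebra.smul_def]

/-- **If an element of the group algebra has bounded rank on the kernels, then they vanish.** -/
theorem injective_of_rank [CharZero K] (hD : IsMono D) (hR : IsGalois R 1)
    (hP : HasTwistedPowers R C n) (hj : 0 < j) {f : G →₀ K} (hf : f ≠ 0) {b : ℕ}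
    (hb : KernelRankAtMost D R n m j f b) : MonodromyInjective D R n m j := by
  intro S t hS ht
  obtain ⟨h₀, hh₀⟩ := Finsupp.support_nonempty_iff.2 hf
  obtain ⟨U, hU, hi, hM⟩ := exists_tp hS hP (f := f) (h₀ := h₀)
  obtain ⟨V, p, a, b', κ, h⟩ := hM (b + 1)
  obtain ⟨c, hc, hc2⟩ := hb V (fun l => H.up (p (QuotientGroup.mk 1) l) t) h.dimV
    (fun l => inKernel_pull hD _ ht)
  have hdeg : H.Deg (1 * m) t := by
    rw [one_mul]
    exact hD.hasWeights.le _ _ _ ht.1
  have key := core (M := b + 1) (ρ := fun g s => R.act g V m s) (τ := fun g s => R.act g S m s)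
    (DV := H.gr (R.obj V) (1 * m)) (DS := H.gr (R.obj S) (1 * m))
    (fun i l => (H.pull (p i l)).toLinearMap) (fun i l => H.push (p i l))
    (fun i l s hs => H.pull_mem _ hs) (fun g i l v hv => (h.act_down hR g i l.2 hv).symm)
    (fun s hs => hR.one S m s hs) (fun g g' s hs => hR.mul g g' S m s hs)
    (fun g c s hs => hR.smul g S m c s hs) ⊥ ⊥
    (fun i l v hv => by
      rw [Submodule.mem_bot] at hv ⊢
      rw [hv, map_zero])
    (fun g s hs => by
      rw [Submodule.mem_bot] at hs ⊢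
      have h0 := hR.smul g S m 0 0 (Submodule.zero_mem _)
      rw [zero_smul, zero_smul] at h0
      rw [hs]
      exact h0) hh₀
    (i₀ := QuotientGroup.mk 1) hi hdeg (fun i i' l l' hne => ?_) (κ := (κ : K))
    (by exact_mod_cast h.hκ) (fun i l => ?_) hc ((Submodule.mem_bot _).2 hc2)
  · exact (Submodule.mem_bot _).1 key
  · rw [Submodule.mem_bot]
    exact push_pull_zero hD (h.pw l.2 l'.2 (fun e => hne (by
      rw [Prod.mk.injEq] at e ⊢
      exact ⟨e.1, Fin.ext e.2⟩))) (i := 0) (l := 1) (by omega) (by omega)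
      (by omega) (by omega) ht.1
  · have h1 := (h.pw1 i l.2).push_pull (H := H) (i := 0) (by omega) t
    rw [cast_smul] at h1
    exact h1

omit hC hH in
theorem rank_of_injective (hR : IsGalois R 1) (h : MonodromyInjective D R n m j)
    (f : G →₀ K) : KernelRankAtMost D R n m j f 0 := by
  intro X z hX hz
  refine ⟨fun _ => 1, fun h0 => one_ne_zero (congrFun h0 0), ?_⟩
  apply Finset.sum_eq_zero
  intro i _
  rw [app, Finset.sum_eq_zero, smul_zero]
  intro g _
  have h0 := hR.smul g X m 0 0 (Submodule.zero_mem _)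
  rw [zero_smul, zero_smul] at h0
  rw [h X _ hX (hz i), h0, smul_zero]

end Pool.Agent.V1157.GM
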